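import Mathlib

set_option autoImplicit false
set_option linter.unusedSectionVars false

/-! # Primes in intervals longer than a power of the logarithm: tilings -/

open Finset Filter
open scoped Topology ENNReal

namespace Pool.Agent.R301.EQ

/-- the number of primes in `(x, x + y]` -/
noncomputable def pc (x y : ℝ) : ℝ := (Nat.primeCounting ⌊x + y⌋₊ : ℝ) - (Nat.primeCounting ⌊x⌋₊ : ℝ)

/-- the ratio `R(x, y)` -/
noncomputable def R (x y : ℝ) : ℝ := pc x y / (y / Real.log x)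

lemma pc_mono {x y y' : ℝ} (h : y ≤ y') : pc x y ≤ pc x y' := by
  unfold pc
  have h1 : Nat.primeCounting ⌊x + y⌋₊ ≤ Nat.primeCounting ⌊x + y'⌋₊ :=
    Nat.monotone_primeCounting (Nat.floor_mono (by linarith))
  have h2 : (Nat.primeCounting ⌊x + y⌋₊ : ℝ) ≤ Nat.primeCounting ⌊x + y'⌋₊ := by exact_mod_cast h1
  linarith

lemma pc_nonneg {x y : ℝ} (h : 0 ≤ y) : 0 ≤ pc x y := by
  have h1 := pc_mono (x := x) h
  have h2 : pc x 0 = 0 := by
    unfold pc
    rw [add_zero, sub_self]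
  linarith

lemma pc_sum (x h : ℝ) (K : ℕ) : ∑ i ∈ range K, pc (x + i * h) h = pc x (K * h) := by
  have h1 : ∀ i : ℕ, pc (x + i * h) h = (Nat.primeCounting ⌊x + ((i + 1 : ℕ) : ℝ) * h⌋₊ : ℝ) -
      (Nat.primeCounting ⌊x + (i : ℝ) * h⌋₊ : ℝ) := by
    intro i
    unfold pc
    have : x + i * h + h = x + ((i + 1 : ℕ) : ℝ) * h := by push_cast; ring
    rw [this]
  rw [sum_congr rfl fun i _ => h1 i, sum_range_sub (fun i : ℕ => (Nat.primeCounting ⌊x + (i : ℝ) * h⌋₊ : ℝ))]
  unfold pc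
  simp

lemma facts {a b δ : ℝ} (ha : 0 < a) (hab : a < b) (hδ : 0 < δ) : ∀ᶠ x : ℝ in atTop,
    1 ≤ Real.log x ∧ (1 + δ) * Real.log x ^ a ≤ δ * Real.log x ^ b ∧
      ∀ y, x ≤ y → y ≤ 2 * x →
        Real.log x ≤ Real.log y ∧ Real.log y ≤ (1 + δ) * Real.log x ∧
        Real.log x ^ a ≤ Real.log y ^ a ∧ Real.log y ^ a ≤ (1 + δ) * Real.log x ^ a := by
  have h1 : Tendsto (fun L : ℝ => (L + 1) ^ a / L ^ a) atTop (𝓝 1) := by
    have h1 : Tendsto (fun L : ℝ => 1 + 1 * L⁻¹) atTop (𝓝 (1 + 1 * 0)) :=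
      (tendsto_inv_atTop_zero.const_mul 1).const_add 1
    rw [mul_zero, add_zero] at h1
    have h2 := h1.rpow_const (p := a) (Or.inl one_ne_zero)
    rw [Real.one_rpow] at h2
    refine h2.congr' ?_
    filter_upwards [eventually_gt_atTop 0] with L hL
    rw [← Real.div_rpow (by linarith) hL.le]
    congr 1
    field_simp
  have h3 : ∀ᶠ x : ℝ in atTop, (1 + δ) / δ ≤ Real.log x ^ (b - a) :=
    ((tendsto_rpow_atTop (show 0 < b - a by linarith)).comp Real.tendsto_log_atTop).eventually_ge_atTop _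
  filter_upwards [h3, Real.tendsto_log_atTop.eventually_ge_atTop 1,
    Real.tendsto_log_atTop.eventually_ge_atTop (1 / δ),
    Real.tendsto_log_atTop.eventually (h1.eventually (gt_mem_nhds (show (1 : ℝ) < 1 + δ by linarith))),
    eventually_ge_atTop 1] with x h3 h4 h5 h6 h7
  have hl0 : 0 < Real.log x := by linarith
  refine ⟨h4, ?_, ?_⟩
  · have h8 : Real.log x ^ b = Real.log x ^ a * Real.log x ^ (b - a) := by
      rw [← Real.rpow_add hl0]
      congr 1
      ring
    rw [h8]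
    rw [div_le_iff₀ hδ] at h3
    have h9 : 0 < Real.log x ^ a := Real.rpow_pos_of_pos hl0 _
    calc (1 + δ) * Real.log x ^ a ≤ (Real.log x ^ (b - a) * δ) * Real.log x ^ a :=
          mul_le_mul_of_nonneg_right h3 h9.le
      _ = _ := by ring
  · intro y hy1 hy2
    have g1 : Real.log x ≤ Real.log y := Real.log_le_log (by linarith) hy1
    have g2 : Real.log y ≤ Real.log (2 * x) := Real.log_le_log (by linarith) hy2
    rw [Real.log_mul (by norm_num) (by linarith)] at g2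
    have g3 := Real.log_two_lt_d9
    have g4 : 1 ≤ δ * Real.log x := by
      rw [div_le_iff₀ hδ] at h5
      linarith
    rw [div_lt_iff₀ (Real.rpow_pos_of_pos hl0 _)] at h6
    refine ⟨g1, by linarith, Real.rpow_le_rpow hl0.le g1 ha.le, ?_⟩
    exact (Real.rpow_le_rpow (by linarith) (by linarith) ha.le).trans h6.le

/-- the upper bound -/
theorem up {a b c c' : ℝ} (ha : 0 < a) (hab : a < b) (hc0 : 0 ≤ c) (hc : c < c')
    (h : ∀ᶠ x : ℝ in atTop, R x (Real.log x ^ a) ≤ c) :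
    ∀ᶠ x : ℝ in atTop, ∀ y, Real.log x ^ b ≤ y → y ≤ x → R x y ≤ c' := by
  obtain ⟨δ, hδ0, hδ⟩ : ∃ δ : ℝ, 0 < δ ∧ c * (1 + δ) ^ 3 < c' := by
    have hcont : ContinuousAt (fun δ : ℝ => c * (1 + δ) ^ 3) 0 := by fun_prop
    have h0 : (fun δ : ℝ => c * (1 + δ) ^ 3) 0 < c' := by
      norm_num
      exact hc
    have h1 := hcont.eventually (gt_mem_nhds h0)
    obtain ⟨e, he, hball⟩ := Metric.eventually_nhds_iff.1 h1
    refine ⟨e / 2, by positivity, ?_⟩
    apply hball
    rw [Real.dist_eq, sub_zero, abs_of_pos (by positivity)]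
    linarith
  obtain ⟨x₀, hx₀⟩ := eventually_atTop.1 h
  filter_upwards [facts ha hab hδ0, eventually_ge_atTop x₀, eventually_ge_atTop 1] with x hf hx hx1 y hy1 hy2
  obtain ⟨hl1, hba, hf⟩ := hf
  have hl0 : 0 < Real.log x := by linarith
  have hb0 : 0 < Real.log x ^ b := Real.rpow_pos_of_pos hl0 _
  have hy0 : 0 < y := by linarith
  obtain ⟨g, hg⟩ : ∃ g : ℝ, g = Real.log x ^ a := ⟨_, rfl⟩
  have hg0 : 0 < g := by rw [hg]; exact Real.rpow_pos_of_pos hl0 _
  rw [← hg] at hba hf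
  have hgy : g ≤ δ * y := by
    have h1 : δ * Real.log x ^ b ≤ δ * y := mul_le_mul_of_nonneg_left hy1 hδ0.le
    have h2 : 0 ≤ δ * g := by positivity
    linarith
  obtain ⟨K, hK⟩ : ∃ K : ℕ, K = ⌈y / g⌉₊ := ⟨_, rfl⟩
  have hK1 : y ≤ (K : ℝ) * g := by
    have := Nat.le_ceil (y / g)
    rwa [← hK, div_le_iff₀ hg0] at this
  have hK2 : K * g ≤ (1 + δ) * y := by
    have g1 := Nat.ceil_lt_add_one (show 0 ≤ y / g by positivity)
    rw [← hK, ← sub_lt_iff_lt_add, lt_div_iff₀ hg0] at g1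
    linarith
  have hterm : ∀ i ∈ range K, pc (x + i * g) g ≤ c * (1 + δ) * g / Real.log x := by
    intro i hi
    have hi := mem_range.1 hi
    have hi' : (i : ℝ) * g ≤ y := by
      rw [hK, Nat.lt_ceil, lt_div_iff₀ hg0] at hi
      exact hi.le
    have hih : 0 ≤ (i : ℝ) * g := by positivity
    obtain ⟨f1, f2, f3, f4⟩ := hf (x + i * g) (by linarith) (by linarith)
    have h1 := hx₀ (x + i * g) (by linarith)
    obtain ⟨w, hw⟩ : ∃ w : ℝ, w = x + i * g := ⟨_, rfl⟩
    rw [← hw] at f1 f2 f3 f4 h1 ⊢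
    have hlw : 0 < Real.log w := by linarith
    have hwa : 0 < Real.log w ^ a := Real.rpow_pos_of_pos hlw _
    unfold R at h1
    rw [div_le_iff₀ (by positivity)] at h1
    refine (pc_mono f3).trans (h1.trans ?_)
    rw [mul_assoc, mul_div_assoc]
    apply mul_le_mul_of_nonneg_left _ hc0
    exact div_le_div₀ (by positivity) f4 hl0 f1
  have hsum : pc x (K * g) ≤ K * (c * (1 + δ) * g / Real.log x) := by
    rw [← pc_sum]
    refine (sum_le_sum hterm).trans ?_
    rw [sum_const, card_range, nsmul_eq_mul]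
  unfold R
  rw [div_le_iff₀ (by positivity)]
  refine (pc_mono hK1).trans (hsum.trans ?_)
  calc (K : ℝ) * (c * (1 + δ) * g / Real.log x) = c * (1 + δ) * (K * g) / Real.log x := by ring
    _ ≤ c * (1 + δ) * ((1 + δ) * y) / Real.log x := by
        apply div_le_div_of_nonneg_right _ hl0.le
        exact mul_le_mul_of_nonneg_left hK2 (by positivity)
    _ = c * (1 + δ) ^ 2 * (y / Real.log x) := by ring
    _ ≤ c' * (y / Real.log x) := by
        apply mul_le_mul_of_nonneg_right _ (by positivity)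
        refine le_trans ?_ hδ.le
        have : (1 + δ) ^ 2 ≤ (1 + δ) ^ 3 := pow_le_pow_right₀ (by linarith) (by norm_num)
        exact mul_le_mul_of_nonneg_left this hc0

/-- the lower bound -/
theorem low {a b c c' : ℝ} (ha : 0 < a) (hab : a < b) (hc0 : 0 ≤ c') (hc : c' < c)
    (h : ∀ᶠ x : ℝ in atTop, c ≤ R x (Real.log x ^ a)) :
    ∀ᶠ x : ℝ in atTop, ∀ y, Real.log x ^ b ≤ y → y ≤ x → c' ≤ R x y := by
  obtain ⟨δ, hδ0, hδ1, hδ⟩ : ∃ δ : ℝ, 0 < δ ∧ δ ≤ 1 / 2 ∧ c' < c * (1 - δ) / (1 + δ) ^ 2 := by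
    have hcont : ContinuousAt (fun δ : ℝ => c * (1 - δ) / (1 + δ) ^ 2) 0 := by
      have : (1 + (0 : ℝ)) ^ 2 ≠ 0 := by norm_num
      fun_prop (disch := assumption)
    have h0 : c' < (fun δ : ℝ => c * (1 - δ) / (1 + δ) ^ 2) 0 := by
      norm_num
      exact hc
    have h1 := hcont.eventually (lt_mem_nhds h0)
    obtain ⟨e, he, hball⟩ := Metric.eventually_nhds_iff.1 h1
    refine ⟨min (e / 2) (1 / 2), lt_min (by positivity) (by norm_num), min_le_right _ _, ?_⟩
    apply hball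
    rw [Real.dist_eq, sub_zero, abs_of_pos (lt_min (by positivity) (by norm_num))]
    exact (min_le_left _ _).trans_lt (by linarith)
  obtain ⟨x₀, hx₀⟩ := eventually_atTop.1 h
  filter_upwards [facts ha hab hδ0, eventually_ge_atTop x₀, eventually_ge_atTop 1] with x hf hx hx1 y hy1 hy2
  obtain ⟨hl1, hba, hf⟩ := hf
  have hl0 : 0 < Real.log x := by linarith
  have hb0 : 0 < Real.log x ^ b := Real.rpow_pos_of_pos hl0 _
  have hy0 : 0 < y := by linarith
  obtain ⟨q, hq⟩ : ∃ q : ℝ, q = Real.log x ^ a := ⟨_, rfl⟩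
  have hq0 : 0 < q := by rw [hq]; exact Real.rpow_pos_of_pos hl0 _
  obtain ⟨g, hg⟩ : ∃ g : ℝ, g = (1 + δ) * q := ⟨_, rfl⟩
  have hg0 : 0 < g := by rw [hg]; positivity
  rw [← hq] at hba hf
  rw [← hg] at hba hf
  have hgy : g ≤ δ * y := hba.trans (mul_le_mul_of_nonneg_left hy1 hδ0.le)
  obtain ⟨K, hK⟩ : ∃ K : ℕ, K = ⌊y / g⌋₊ := ⟨_, rfl⟩
  have hK1 : (K : ℝ) * g ≤ y := by
    have := Nat.floor_le (show 0 ≤ y / g by positivity)
    rwa [← hK, le_div_iff₀ hg0] at this
  have hK2 : (1 - δ) * y ≤ K * g := by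
    have g1 := Nat.lt_floor_add_one (y / g)
    rw [← hK, div_lt_iff₀ hg0] at g1
    linarith
  have hcp : 0 < c := by linarith
  have hterm : ∀ i ∈ range K, c / (1 + δ) ^ 2 * g / Real.log x ≤ pc (x + i * g) g := by
    intro i hi
    have hi := mem_range.1 hi
    have hi' : (i : ℝ) * g ≤ y := by
      refine le_trans ?_ hK1
      exact mul_le_mul_of_nonneg_right (by exact_mod_cast hi.le) hg0.le
    have hih : 0 ≤ (i : ℝ) * g := by positivity
    obtain ⟨f1, f2, f3, f4⟩ := hf (x + i * g) (by linarith) (by linarith)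
    have h1 := hx₀ (x + i * g) (by linarith)
    obtain ⟨w, hw⟩ : ∃ w : ℝ, w = x + i * g := ⟨_, rfl⟩
    rw [← hw] at f1 f2 f3 f4 h1 ⊢
    have hlw : 0 < Real.log w := by linarith
    have hwa : 0 < Real.log w ^ a := Real.rpow_pos_of_pos hlw _
    unfold R at h1
    rw [le_div_iff₀ (by positivity)] at h1
    refine le_trans ?_ (h1.trans (pc_mono f4))
    have h2 : c / (1 + δ) ^ 2 * g / Real.log x = c * (q / ((1 + δ) * Real.log x)) := by
      rw [hg]
      field_simp
    rw [h2]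
    apply mul_le_mul_of_nonneg_left _ hcp.le
    exact div_le_div₀ hwa.le f3 hlw f2
  have hsum : K * (c / (1 + δ) ^ 2 * g / Real.log x) ≤ pc x (K * g) := by
    rw [← pc_sum]
    refine le_trans ?_ (sum_le_sum hterm)
    rw [sum_const, card_range, nsmul_eq_mul]
  unfold R
  rw [le_div_iff₀ (by positivity)]
  refine le_trans ?_ (hsum.trans (pc_mono hK1))
  calc c' * (y / Real.log x) ≤ (c * (1 - δ) / (1 + δ) ^ 2) * (y / Real.log x) :=
        mul_le_mul_of_nonneg_right hδ.le (by positivity)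
    _ = c / (1 + δ) ^ 2 * ((1 - δ) * y) / Real.log x := by ring
    _ ≤ c / (1 + δ) ^ 2 * (K * g) / Real.log x := by
        apply div_le_div_of_nonneg_right _ hl0.le
        exact mul_le_mul_of_nonneg_left hK2 (by positivity)
    _ = K * (c / (1 + δ) ^ 2 * g / Real.log x) := by ring

lemma log_pow_le (a : ℝ) : ∀ᶠ x : ℝ in atTop, Real.log x ^ a ≤ x := by
  have := (isLittleO_log_rpow_rpow_atTop a (show (0 : ℝ) < 1 by norm_num)).def (show (0 : ℝ) < 1 by norm_num)
  filter_upwards [this, eventually_ge_atTop 1] with x hx hx1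
  have hl := Real.log_nonneg hx1
  rw [Real.norm_of_nonneg (Real.rpow_nonneg hl _), Real.rpow_one, Real.norm_of_nonneg (by linarith)] at hx
  linarith

end Pool.Agent.R301.EQ
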